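import Pool.Agent.H.MP_d7d3dc_an.h17.Sys
import Pool.Agent.H.MP_d7d3dc_an.h98.Main

/-!
MP_d7d3dc_an: spaces with an unconditional basis. A determinant (Lozanovskii type) position of the
unconditional body and a cut into a cube and a cross-polytope.
-/

set_option autoImplicit false

namespace Pool.Agent.H.MP_d7d3dc_an.H70

open D7u D546neg
open scoped RealInnerProductSpace ENNReal BigOperators Topology

/-- The basis `b` of `X` has unconditional constant at most `u`: changing signs of coordinates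
increases the norm at most by the factor `u`. -/
def UncBasis {m : ℕ} {X : Type} [NormedAddCommGroup X] [NormedSpace ℝ X]
    (b : Module.Basis (Fin m) ℝ X) (u : ℝ) : Prop :=
  ∀ (ε a : Fin m → ℝ), (∀ i, ε i = 1 ∨ ε i = -1) →
    ‖∑ i, (ε i * a i) • b i‖ ≤ u * ‖∑ i, a i • b i‖

/-- `D_m(u)`: the supremum over the `m`-dimensional real normed spaces `X` having a basis with
unconditional constant at most `u` of the distance from `X` to the spaces of numerical index `1`. -/
noncomputable def maxDistUnc (m : ℕ) (u : ℝ) : ℝ≥0∞ :=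
  ⨆ X : NSpace m, ⨆ _ : ∃ b : Module.Basis (Fin m) ℝ X.carrier, UncBasis b u,
    ⨅ Y : NSpace m, ⨅ _ : numIndex Y.carrier = 1, bmDist X.carrier Y.carrier

section body

variable {m : ℕ} {X : Type} [NormedAddCommGroup X] [NormedSpace ℝ X]
  (b : Module.Basis (Fin m) ℝ X)

/-- all sign changes of `a` have norm at most `R`. -/
def SB (a : Fin m → ℝ) (R : ℝ) : Prop :=
  ∀ ε : Fin m → ℝ, (∀ i, ε i = 1 ∨ ε i = -1) → ‖∑ i, (ε i * a i) • b i‖ ≤ R

variable {b}

lemma SB.cube {a : Fin m → ℝ} {R : ℝ} (h : SB b a R) (c : Fin m → ℝ) (hc : ∀ i, |c i| ≤ 1) :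
    ‖∑ i, (c i * a i) • b i‖ ≤ R := by
  have := seminorm_cube_le (normSeminorm ℝ X) Finset.univ (fun i => a i • b i) R
    (fun ε hε => by
      simp only [coe_normSeminorm, smul_smul]
      exact h ε hε) c hc
  simpa only [coe_normSeminorm, smul_smul] using this

lemma SB.mono {a a' : Fin m → ℝ} {R : ℝ} (h : SB b a R) (h' : ∀ i, |a' i| ≤ |a i|) :
    SB b a' R := by
  intro ε hε
  have hc : ∀ i, ε i * a' i = (ε i * (a' i / a i)) * a i := by
    intro i
    by_cases h0 : a i = 0
    · have := h' i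
      rw [h0, abs_zero] at this
      have h1 : a' i = 0 := abs_nonpos_iff.1 this
      simp [h0, h1]
    · field_simp
  simp_rw [hc]
  refine h.cube _ fun i => ?_
  have hε1 : |ε i| = 1 := by rcases hε i with h1 | h1 <;> simp [h1]
  rw [abs_mul, hε1, one_mul, abs_div]
  exact div_le_one_of_le₀ (h' i) (abs_nonneg _)

lemma SB.combo {a a' : Fin m → ℝ} {R R' s t : ℝ} (h : SB b a R) (h' : SB b a' R')
    (hs : 0 ≤ s) (ht : 0 ≤ t) : SB b (fun i => s * a i + t * a' i) (s * R + t * R') := by
  intro ε hε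
  have h1 : ∑ i, (ε i * (s * a i + t * a' i)) • b i =
      s • (∑ i, (ε i * a i) • b i) + t • ∑ i, (ε i * a' i) • b i := by
    rw [Finset.smul_sum, Finset.smul_sum, ← Finset.sum_add_distrib]
    refine Finset.sum_congr rfl fun i _ => ?_
    rw [smul_smul, smul_smul, ← add_smul]
    congr 1
    ring
  rw [h1]
  refine (norm_add_le _ _).trans ?_
  rw [norm_smul, norm_smul, Real.norm_of_nonneg hs, Real.norm_of_nonneg ht]
  exact add_le_add (mul_le_mul_of_nonneg_left (h ε hε) hs)
    (mul_le_mul_of_nonneg_left (h' ε hε) ht)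

lemma SB.coord {a : Fin m → ℝ} {R : ℝ} (h : SB b a R) (i : Fin m) : |a i| * ‖b i‖ ≤ R := by
  classical
  have := h.cube (fun j => if j = i then 1 else 0) (fun j => by
    by_cases hj : j = i <;> simp [hj])
  simpa [norm_smul] using this

/-- a first-order condition for products. -/
lemma sum_div_le_of_prod_le (w x : Fin m → ℝ) (hw : ∀ i, 0 < w i)
    (h : ∀ t : ℝ, 0 ≤ t → t ≤ 1 → ∏ i, ((1 - t) * w i + t * x i) ≤ ∏ i, w i) :
    ∑ i, x i / w i ≤ m := by
  classical
  set f : ℝ → ℝ := fun t => ∏ i, ((1 - t) * w i + t * x i) with hf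
  have hd : HasDerivAt f (∑ i, (∏ j ∈ Finset.univ.erase i, w j) * (x i - w i)) 0 := by
    have h1 : ∀ i ∈ (Finset.univ : Finset (Fin m)),
        HasDerivAt (fun t : ℝ => (1 - t) * w i + t * x i) (x i - w i) 0 := by
      intro i _
      have h2 : HasDerivAt (fun t : ℝ => (1 - t) * w i + t * x i)
          ((0 - 1) * w i + 1 * x i) 0 :=
        (((hasDerivAt_const (0 : ℝ) (1 : ℝ)).sub (hasDerivAt_id (0 : ℝ))).mul_const (w i)).add
          ((hasDerivAt_id (0 : ℝ)).mul_const (x i))
      convert h2 using 1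
      ring
    have h3 := HasDerivAt.fun_finsetProd h1
    simpa [hf, smul_eq_mul] using h3
  have hle : (∑ i, (∏ j ∈ Finset.univ.erase i, w j) * (x i - w i)) ≤ 0 := by
    have h4 := (hasDerivWithinAt_iff_tendsto_slope' (s := Set.Ioi (0 : ℝ)) (by simp)).1
      (hd.hasDerivWithinAt (s := Set.Ioi (0 : ℝ)))
    refine le_of_tendsto h4 ?_
    have h5 : Set.Ioo (0 : ℝ) 1 ∈ 𝓝[>] (0 : ℝ) := Ioo_mem_nhdsGT one_pos
    filter_upwards [h5] with t ht
    rw [slope_def_field]
    have h6 : f t ≤ f 0 := by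
      have := h t ht.1.le ht.2.le
      simpa [hf] using this
    exact div_nonpos_of_nonpos_of_nonneg (by linarith) (by linarith [ht.1])
  have hP : 0 < ∏ i, w i := Finset.prod_pos fun i _ => hw i
  have h7 : ∀ i, (∏ j ∈ Finset.univ.erase i, w j) * (x i - w i)
      = (∏ j, w j) * (x i / w i - 1) := by
    intro i
    rw [← Finset.mul_prod_erase Finset.univ w (Finset.mem_univ i)]
    have := (hw i).ne'
    field_simp
  rw [Finset.sum_congr rfl fun i _ => h7 i, ← Finset.mul_sum] at hle
  have h8 : ∑ i, (x i / w i - 1) ≤ 0 := by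
    by_contra hcon
    push Not at hcon
    have := mul_pos hP hcon
    linarith
  rw [Finset.sum_sub_distrib] at h8
  simp at h8
  linarith

variable (b)

/-- the position: a point of the unconditional body of maximal product. -/
lemma exists_position : ∃ w : Fin m → ℝ, (∀ i, 0 < w i) ∧ SB b w 1 ∧
    ∀ (x : Fin m → ℝ) (R : ℝ), 0 < R → SB b x R → ∑ i, |x i| / w i ≤ m * R := by
  classical
  have : FiniteDimensional ℝ X := Module.Basis.finiteDimensional_of_finite b
  let L : X ≃L[ℝ] (Fin m → ℝ) := b.equivFun.toContinuousLinearEquiv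
  let K : Set (Fin m → ℝ) := {a | (∀ i, 0 ≤ a i) ∧ SB b a 1}
  have hclosed : IsClosed K := by
    have h1 : K = {a : Fin m → ℝ | ∀ i, 0 ≤ a i} ∩
        ⋂ (ε : Fin m → ℝ) (_ : ∀ i, ε i = 1 ∨ ε i = -1),
          {a : Fin m → ℝ | ‖∑ i, (ε i * a i) • b i‖ ≤ 1} := by
      ext a
      simp [K, SB]
    rw [h1]
    refine IsClosed.inter ?_ ?_
    · have : {a : Fin m → ℝ | ∀ i, 0 ≤ a i} = ⋂ i, {a : Fin m → ℝ | 0 ≤ a i} := by
        ext a; simp
      rw [this]
      exact isClosed_iInter fun i => isClosed_le continuous_const (continuous_apply i)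
    · refine isClosed_iInter fun ε => isClosed_iInter fun _ => ?_
      refine isClosed_le ?_ continuous_const
      refine continuous_norm.comp (continuous_finsetSum _ fun i _ => ?_)
      exact (continuous_const.mul (continuous_apply i)).smul continuous_const
  have hbdd : Bornology.IsBounded K := by
    refine (Metric.isBounded_closedBall (x := (0 : Fin m → ℝ))
      (r := ‖(L : X →L[ℝ] (Fin m → ℝ))‖)).subset ?_
    intro a ha
    rw [mem_closedBall_zero_iff]
    have h1 : L (∑ i, a i • b i) = a := by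
      show b.equivFun (∑ i, a i • b i) = a
      rw [← b.equivFun_symm_apply, LinearEquiv.apply_symm_apply]
    have h2 : ‖∑ i, a i • b i‖ ≤ 1 := by
      have := ha.2 (fun _ => 1) (fun _ => Or.inl rfl)
      simpa using this
    calc ‖a‖ = ‖(L : X →L[ℝ] (Fin m → ℝ)) (∑ i, a i • b i)‖ := by
          rw [ContinuousLinearEquiv.coe_coe, h1]
      _ ≤ ‖(L : X →L[ℝ] (Fin m → ℝ))‖ * ‖∑ i, a i • b i‖ := ContinuousLinearMap.le_opNorm _ _
      _ ≤ ‖(L : X →L[ℝ] (Fin m → ℝ))‖ * 1 := mul_le_mul_of_nonneg_left h2 (norm_nonneg _)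
      _ = _ := mul_one _
  have hcomp : IsCompact K := Metric.isCompact_of_isClosed_isBounded hclosed hbdd
  -- a point with positive product
  set S : ℝ := 1 + ∑ i, ‖b i‖ with hS
  have hS0 : 0 < S := by
    have : 0 ≤ ∑ i, ‖b i‖ := Finset.sum_nonneg fun i _ => norm_nonneg _
    linarith
  have hδ : (fun _ : Fin m => 1 / S) ∈ K := by
    refine ⟨fun i => by positivity, fun ε hε => ?_⟩
    calc ‖∑ i, (ε i * (1 / S)) • b i‖ ≤ ∑ i, ‖(ε i * (1 / S)) • b i‖ := norm_sum_le _ _
      _ = ∑ i, (1 / S) * ‖b i‖ := by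
          refine Finset.sum_congr rfl fun i _ => ?_
          have hε1 : |ε i| = 1 := by rcases hε i with h1 | h1 <;> simp [h1]
          rw [norm_smul, Real.norm_eq_abs, abs_mul, hε1, one_mul, abs_of_pos (by positivity)]
      _ = (1 / S) * ∑ i, ‖b i‖ := by rw [Finset.mul_sum]
      _ ≤ (1 / S) * S := mul_le_mul_of_nonneg_left (by linarith) (by positivity)
      _ = 1 := by field_simp
  obtain ⟨w, hwK, hwmax⟩ := hcomp.exists_isMaxOn ⟨_, hδ⟩
    (f := fun a : Fin m → ℝ => ∏ i, a i)
    (continuous_finsetProd _ fun i _ => continuous_apply i).continuousOn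
  have hPpos : 0 < ∏ i, w i := by
    have h1 := hwmax hδ
    simp only [Set.mem_ofPred_eq] at h1
    refine lt_of_lt_of_le ?_ h1
    exact Finset.prod_pos fun i _ => by positivity
  have hwpos : ∀ i, 0 < w i := by
    intro i
    rcases (hwK.1 i).lt_or_eq with h | h
    · exact h
    · exfalso
      rw [Finset.prod_eq_zero (Finset.mem_univ i) h.symm] at hPpos
      exact lt_irrefl _ hPpos
  refine ⟨w, hwpos, hwK.2, fun x R hR hx => ?_⟩
  have hx' : SB b (fun i => |x i| / R) 1 := by
    have h1 : SB b (fun i => (1 / R) * x i + 0 * x i) ((1 / R) * R + 0 * R) :=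
      hx.combo hx (by positivity) le_rfl
    have h2 : (1 / R) * R + 0 * R = 1 := by field_simp; ring
    rw [h2] at h1
    refine h1.mono fun i => ?_
    have h3 : (1 / R) * x i + 0 * x i = x i / R := by ring
    rw [h3, abs_div, abs_div, abs_abs]
  have h3 := sum_div_le_of_prod_le w (fun i => |x i| / R) hwpos (fun t ht0 ht1 => by
    have h4 : (fun i => (1 - t) * w i + t * (|x i| / R)) ∈ K := by
      refine ⟨fun i => ?_, ?_⟩
      · have := (hwpos i).le
        have h5 : 0 ≤ |x i| / R := by positivity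
        have h6 : 0 ≤ 1 - t := by linarith
        positivity
      · have h5 := hwK.2.combo hx' (s := 1 - t) (t := t) (by linarith) ht0
        have h6 : (1 - t) * 1 + t * 1 = (1 : ℝ) := by ring
        rwa [h6] at h5
    exact hwmax h4)
  have h5 : ∑ i, |x i| / w i = R * ∑ i, |x i| / R / w i := by
    rw [Finset.mul_sum]
    refine Finset.sum_congr rfl fun i _ => ?_
    have := (hwpos i).ne'
    field_simp
  rw [h5, mul_comm (m : ℝ) R]
  exact mul_le_mul_of_nonneg_left h3 hR.le

end body

end Pool.Agent.H.MP_d7d3dc_an.H70
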