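import Pool.Agent.H.MP_d7d3dc_an.h70.Unc

/-!
MP_d7d3dc_an: spaces with an unconditional basis, the distance.
-/

set_option autoImplicit false

namespace Pool.Agent.H.MP_d7d3dc_an.H70

open D7u D546neg
open scoped RealInnerProductSpace ENNReal BigOperators Topology

section dist

variable {m : ℕ} {X : Type} [NormedAddCommGroup X] [NormedSpace ℝ X]

/-- the coordinate map of a basis. -/
noncomputable def coordEquiv (b : Module.Basis (Fin m) ℝ X) : E m ≃L[ℝ] X :=
  have : FiniteDimensional ℝ X := Module.Basis.finiteDimensional_of_finite b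
  (EuclideanSpace.equiv (Fin m) ℝ).trans b.equivFun.symm.toContinuousLinearEquiv

lemma coordEquiv_apply (b : Module.Basis (Fin m) ℝ X) (z : E m) :
    coordEquiv b z = ∑ i, z i • b i := by
  show b.equivFun.symm (fun i => z i) = _
  rw [b.equivFun_symm_apply]

private lemma sum_filter_single (b : Module.Basis (Fin m) ℝ X) (w ε : Fin m → ℝ)
    (β : Fin m → Fin m) (c : Fin m) :
    coordEquiv b (∑ i ∈ Finset.univ.filter (fun i => β i = c),
      ε i • EuclideanSpace.single i (w i)) =
      ∑ i, ((if β i = c then ε i else 0) * w i) • b i := by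
  classical
  rw [map_sum, Finset.sum_filter]
  refine Finset.sum_congr rfl fun i _ => ?_
  by_cases h : β i = c
  · rw [if_pos h, if_pos h, map_smul, coordEquiv_apply, Finset.sum_eq_single i]
    · simp [smul_smul]
    · intro j _ hj
      simp [hj]
    · simp
  · rw [if_neg h, if_neg h]
    simp

/-- the core estimate: `‖y‖_∞` on the large coordinates plus `‖y‖_1 / √m` on the small ones. -/
lemma split_bound (hm : 1 ≤ m) (y p : Fin m → ℝ) (R : ℝ) (hy : ∀ i, 0 ≤ y i)
    (h1 : ∑ i, y i ≤ m * R) (h2 : ∀ i, y i * p i ≤ R) (i1 : Fin m) (hi1 : 1 / √m ≤ p i1) :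
    y i1 + (1 / √m) * ∑ i ∈ Finset.univ.filter (fun i => ¬ 1 / √m ≤ p i), y i
      ≤ (2 * √m - 1) * R := by
  classical
  have hm1 : (1 : ℝ) ≤ m := by exact_mod_cast hm
  have hs1 : 1 ≤ √(m : ℝ) := Real.one_le_sqrt.2 hm1
  have hs0 : 0 < √(m : ℝ) := by linarith
  have hss : √(m : ℝ) * √(m : ℝ) = m := Real.mul_self_sqrt (by linarith)
  have h3 : y i1 + ∑ i ∈ Finset.univ.filter (fun i => ¬ 1 / √m ≤ p i), y i ≤ ∑ i, y i := by
    have h4 : i1 ∉ Finset.univ.filter (fun i => ¬ 1 / √m ≤ p i) := by
      simp only [Finset.mem_filter, Finset.mem_univ, true_and, not_not]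
      exact hi1
    rw [← Finset.sum_insert h4]
    exact Finset.sum_le_sum_of_subset_of_nonneg (Finset.subset_univ _) fun i _ _ => hy i
  set Z := ∑ i ∈ Finset.univ.filter (fun i => ¬ 1 / √m ≤ p i), y i with hZ
  have h5 : y i1 * (1 / √m) ≤ R :=
    (mul_le_mul_of_nonneg_left hi1 (hy i1)).trans (h2 i1)
  have h6 : y i1 ≤ √m * R := by
    rw [mul_one_div, div_le_iff₀ hs0] at h5
    linarith
  have h7 : Z ≤ m * R - y i1 := by linarith
  have h8 : (1 / √m) * Z ≤ (1 / √m) * (m * R - y i1) :=
    mul_le_mul_of_nonneg_left h7 (by positivity)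
  have h9 : (1 / √m) * (m * R - y i1) = √m * R - (1 / √m) * y i1 := by
    have : (m : ℝ) = √m * √m := hss.symm
    field_simp
    rw [Real.sq_sqrt (by linarith)]
  have h10 : 0 ≤ 1 - 1 / √m := by
    rw [sub_nonneg, div_le_one hs0]
    exact hs1
  have h11 : y i1 * (1 - 1 / √m) ≤ √m * R * (1 - 1 / √m) := mul_le_mul_of_nonneg_right h6 h10
  have h12 : √m * R * (1 - 1 / √m) = √m * R - R := by
    field_simp
  nlinarith

theorem dist_unc (hm : 1 ≤ m) (b : Module.Basis (Fin m) ℝ X) (u : ℝ) (hb : UncBasis b u) :
    ∃ β : Fin m → Fin m, bmDist X (CL β) ≤ ENNReal.ofReal (u * (2 * √m - 1)) := by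
  classical
  have hm1 : (1 : ℝ) ≤ m := by exact_mod_cast hm
  have hs1 : 1 ≤ √(m : ℝ) := Real.one_le_sqrt.2 hm1
  have hs0 : 0 < √(m : ℝ) := by linarith
  have hss : √(m : ℝ) * √(m : ℝ) = m := Real.mul_self_sqrt (by linarith)
  obtain ⟨w, hw, hw1, hmain⟩ := exists_position b
  have hu1 : 1 ≤ u := by
    have h0 := hb (fun _ => 1) (fun i => if i = ⟨0, hm⟩ then 1 else 0) (fun _ => Or.inl rfl)
    have h1 : 0 < ‖b ⟨0, hm⟩‖ := norm_pos_iff.2 (b.ne_zero _)
    simp at h0
    nlinarith
  set p : Fin m → ℝ := fun i => w i * ‖b i‖ with hp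
  -- the bounds for a vector
  have hvec : ∀ z : E m, ∑ i, |z i| / w i ≤ m * (u * ‖coordEquiv b z‖) ∧
      ∀ i, |z i| / w i * p i ≤ u * ‖coordEquiv b z‖ := by
    intro z
    rcases eq_or_ne z 0 with h0 | h0
    · subst h0
      simp
    · have hz : 0 < ‖coordEquiv b z‖ := by
        rw [norm_pos_iff]
        intro h
        exact h0 ((coordEquiv b).map_eq_zero_iff.1 h)
      have hR : 0 < u * ‖coordEquiv b z‖ := by positivity
      have hS : SB b (fun i => z i) (u * ‖coordEquiv b z‖) := by
        intro ε hε
        rw [coordEquiv_apply]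
        exact hb ε (fun i => z i) hε
      refine ⟨hmain _ _ hR hS, fun i => ?_⟩
      have h1 := hS.coord i
      have h2 : |z i| / w i * p i = |z i| * ‖b i‖ := by
        have := (hw i).ne'
        simp only [hp]
        field_simp
      rw [h2]
      exact h1
  let xs : Fin m → E m := fun i => EuclideanSpace.single i (w i)
  let ys : Fin m → E m := fun i => EuclideanSpace.single i (1 / w i)
  have hxy : ∀ i j, ⟪xs i, ys j⟫ = if i = j then (1 : ℝ) else 0 := by
    intro i j
    simp only [xs, ys]
    rw [EuclideanSpace.inner_single_left]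
    by_cases h : i = j
    · subst h
      have := (hw i).ne'
      simp [this]
    · simp [h]
  have hzy : ∀ (z : E m) i, ⟪z, ys i⟫ = z i / w i := by
    intro z i
    simp only [ys]
    rw [EuclideanSpace.inner_single_right]
    simp [div_eq_mul_inv, mul_comm]
  have habs : ∀ (z : E m) i, |z i / w i| = |z i| / w i := fun z i => by
    rw [abs_div, abs_of_pos (hw i)]
  -- one coordinate
  have hone : ∀ (c : Fin m) (ε : Fin m → ℝ) (β : Fin m → Fin m),
      (∀ i, ε i = 1 ∨ ε i = -1) → (∀ i, β i = c → i = c) → p c ≤ 1 / √m →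
      ‖coordEquiv b (∑ i ∈ Finset.univ.filter (fun i => β i = c), ε i • xs i)‖ ≤ 1 / √m := by
    intro c ε β hε hβ hpc
    rw [sum_filter_single]
    have h1 : ∑ i, ((if β i = c then ε i else 0) * w i) • b i =
        ((if β c = c then ε c else 0) * w c) • b c := by
      rw [Finset.sum_eq_single c]
      · intro i _ hi
        have : ¬ β i = c := fun h => hi (hβ i h)
        simp [this]
      · simp
    rw [h1, norm_smul, Real.norm_eq_abs, abs_mul, abs_of_pos (hw c)]
    have h2 : |if β c = c then ε c else 0| ≤ 1 := by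
      by_cases h : β c = c
      · rw [if_pos h]
        rcases hε c with h3 | h3 <;> simp [h3]
      · rw [if_neg h]
        simp
    calc |if β c = c then ε c else 0| * w c * ‖b c‖ = |if β c = c then ε c else 0| * p c := by
          simp only [hp]; ring
      _ ≤ 1 * p c := mul_le_mul_of_nonneg_right h2 (by
          have := (hw c).le
          simp only [hp]
          positivity)
      _ ≤ 1 / √m := by rw [one_mul]; exact hpc
  by_cases hG : ∃ i0, 1 / √m ≤ p i0
  · obtain ⟨i0, hi0⟩ := hG
    let β : Fin m → Fin m := fun i => if 1 / √m ≤ p i then i0 else i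
    have hβ1 : ∀ i, 1 / √m ≤ p i → β i = i0 := fun i h => if_pos h
    have hβ2 : ∀ i, ¬ 1 / √m ≤ p i → β i = i := fun i h => if_neg h
    let A : Fin m → ℝ := fun c => if c = i0 then 1 else 1 / √m
    refine ⟨β, bmDist_le_of_system X (coordEquiv b) xs ys hxy β A ?_ ?_ _ ?_⟩
    · intro c
      simp only [A]
      split_ifs <;> positivity
    · intro c ε hε
      by_cases hc : c = i0
      · have hA : A c = 1 := if_pos hc
        rw [hA, sum_filter_single]
        refine hw1.cube _ fun i => ?_
        by_cases h : β i = c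
        · rw [if_pos h]
          rcases hε i with h3 | h3 <;> simp [h3]
        · rw [if_neg h]
          simp
      · have hA : A c = 1 / √m := if_neg hc
        rw [hA]
        by_cases hpc : 1 / √m ≤ p c
        · -- the block is empty
          have h1 : Finset.univ.filter (fun i => β i = c) = ∅ := by
            rw [Finset.filter_eq_empty_iff]
            intro i _ h
            by_cases h2 : 1 / √m ≤ p i
            · rw [hβ1 i h2] at h
              exact hc h.symm
            · rw [hβ2 i h2] at h
              rw [h] at h2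
              exact h2 hpc
          rw [h1]
          simp
        · refine hone c ε β hε (fun i h => ?_) (not_le.1 hpc).le
          by_cases h2 : 1 / √m ≤ p i
          · rw [hβ1 i h2] at h
            exact absurd h.symm hc
          · rw [hβ2 i h2] at h
            exact h
    · intro z
      obtain ⟨hz1, hz2⟩ := hvec z
      -- norms of the blocks
      set q : (c : Fin m) → ℝ :=
        fun c => ‖(fun i => ⟪z, ys i⟫ : {i : Fin m // β i = c} → ℝ)‖ with hq
      have hq0 : ∀ c, 0 ≤ q c := fun c => norm_nonneg _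
      have hqle : ∀ c r, 0 ≤ r → (∀ i, β i = c → |z i| / w i ≤ r) → q c ≤ r := by
        intro c r hr h
        refine (pi_norm_le_iff_of_nonneg hr).2 fun i => ?_
        rw [hzy, Real.norm_eq_abs, habs]
        exact h i.1 i.2
      -- the maximum on the large block
      obtain ⟨i1, hi1, hmax⟩ := Finset.exists_max_image
        (Finset.univ.filter (fun i => 1 / √m ≤ p i)) (fun i => |z i| / w i)
        ⟨i0, by simpa using hi0⟩
      have hi1' : 1 / √m ≤ p i1 := by simpa using hi1
      have h1 : q i0 ≤ |z i1| / w i1 := by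
        refine hqle _ _ (div_nonneg (abs_nonneg _) (hw _).le) fun i hi => ?_
        refine hmax i ?_
        by_cases h2 : 1 / √m ≤ p i
        · simpa using h2
        · rw [hβ2 i h2] at hi
          rw [hi]
          simpa using hi0
      have h2 : ∀ c, c ≠ i0 → q c ≤ if 1 / √m ≤ p c then 0 else |z c| / w c := by
        intro c hc
        by_cases hpc : 1 / √m ≤ p c
        · rw [if_pos hpc]
          refine hqle _ _ le_rfl fun i hi => ?_
          exfalso
          by_cases h2 : 1 / √m ≤ p i
          · rw [hβ1 i h2] at hi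
            exact hc hi.symm
          · rw [hβ2 i h2] at hi
            rw [hi] at h2
            exact h2 hpc
        · rw [if_neg hpc]
          refine hqle _ _ (div_nonneg (abs_nonneg _) (hw _).le) fun i hi => ?_
          by_cases h2 : 1 / √m ≤ p i
          · rw [hβ1 i h2] at hi
            exact absurd hi.symm hc
          · rw [hβ2 i h2] at hi
            rw [hi]
      have h3 : ∑ c, A c * q c ≤ |z i1| / w i1 + (1 / √m) *
          ∑ i ∈ Finset.univ.filter (fun i => ¬ 1 / √m ≤ p i), |z i| / w i := by
        rw [← Finset.add_sum_erase Finset.univ _ (Finset.mem_univ i0)]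
        refine add_le_add ?_ ?_
        · have : A i0 = 1 := if_pos rfl
          rw [this, one_mul]
          exact h1
        · calc ∑ c ∈ Finset.univ.erase i0, A c * q c
              ≤ ∑ c ∈ Finset.univ.erase i0,
                (1 / √m) * (if 1 / √m ≤ p c then 0 else |z c| / w c) := by
                refine Finset.sum_le_sum fun c hc => ?_
                have hc' := Finset.ne_of_mem_erase hc
                have : A c = 1 / √m := if_neg hc'
                rw [this]
                exact mul_le_mul_of_nonneg_left (h2 c hc') (by positivity)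
            _ ≤ ∑ c, (1 / √m) * (if 1 / √m ≤ p c then 0 else |z c| / w c) := by
                refine Finset.sum_le_sum_of_subset_of_nonneg (Finset.subset_univ _)
                  fun c _ _ => ?_
                have := (hw c).le
                split_ifs <;> positivity
            _ = _ := by
                rw [← Finset.mul_sum, Finset.sum_filter]
                congr 1
                refine Finset.sum_congr rfl fun c _ => ?_
                by_cases h : 1 / √m ≤ p c
                · rw [if_pos h, if_neg (not_not.2 h)]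
                · rw [if_neg h, if_pos h]
      refine h3.trans ?_
      have h4 := split_bound hm (fun i => |z i| / w i) p (u * ‖coordEquiv b z‖)
        (fun i => div_nonneg (abs_nonneg _) (hw i).le) hz1 hz2 i1 hi1'
      refine h4.trans (le_of_eq ?_)
      ring
  · push Not at hG
    refine ⟨id, bmDist_le_of_system X (coordEquiv b) xs ys hxy id (fun _ => 1 / √m) ?_ ?_ _ ?_⟩
    · intro c
      positivity
    · intro c ε hε
      exact hone c ε id hε (fun i h => h) (hG c).le
    · intro z
      obtain ⟨hz1, -⟩ := hvec z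
      have h1 : ∀ c : Fin m, ‖(fun i => ⟪z, ys i⟫ : {i : Fin m // id i = c} → ℝ)‖ ≤
          |z c| / w c := by
        intro c
        refine (pi_norm_le_iff_of_nonneg (div_nonneg (abs_nonneg _) (hw _).le)).2 fun i => ?_
        rw [hzy, Real.norm_eq_abs, habs]
        have : i.1 = c := i.2
        rw [this]
      calc ∑ c, (1 / √m) * ‖(fun i => ⟪z, ys i⟫ : {i : Fin m // id i = c} → ℝ)‖
          ≤ ∑ c, (1 / √m) * (|z c| / w c) :=
            Finset.sum_le_sum fun c _ => mul_le_mul_of_nonneg_left (h1 c) (by positivity)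
        _ = (1 / √m) * ∑ c, |z c| / w c := by rw [Finset.mul_sum]
        _ ≤ (1 / √m) * (m * (u * ‖coordEquiv b z‖)) :=
            mul_le_mul_of_nonneg_left hz1 (by positivity)
        _ = √m * (u * ‖coordEquiv b z‖) := by
            field_simp
            rw [Real.sq_sqrt (by linarith)]
        _ ≤ (2 * √m - 1) * (u * ‖coordEquiv b z‖) :=
            mul_le_mul_of_nonneg_right (by linarith) (by positivity)
        _ = u * (2 * √m - 1) * ‖coordEquiv b z‖ := by ring

end dist

theorem maxDistUnc_le {m : ℕ} (hm : 1 ≤ m) (u : ℝ) :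
    maxDistUnc m u ≤ ENNReal.ofReal (u * (2 * √m - 1)) := by
  refine iSup_le fun X => iSup_le fun hX => ?_
  obtain ⟨b, hb⟩ := hX
  obtain ⟨β, hβ⟩ := dist_unc hm b u hb
  let Y : NSpace m := ⟨CL β, CL_finrank β⟩
  have hY : numIndex Y.carrier = 1 := CL_numIndex hm β
  exact iInf_le_of_le Y (iInf_le_of_le hY hβ)

theorem le_maxDistUnc {m : ℕ} (hm : 1 ≤ m) (u : ℝ) (hu : 1 ≤ u) :
    ENNReal.ofReal (2 / 3 * √m) ≤ maxDistUnc m u := by
  refine (H98.inf_sqrt hm).trans ?_
  let X : NSpace m := ⟨EuclideanSpace ℝ (Fin m), by simp⟩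
  refine le_iSup_of_le X (le_iSup_of_le ?_ le_rfl)
  refine ⟨(EuclideanSpace.basisFun (Fin m) ℝ).toBasis, fun ε a hε => ?_⟩
  have h1 : ∀ c : Fin m → ℝ,
      ‖∑ i, c i • ((EuclideanSpace.basisFun (Fin m) ℝ).toBasis i : EuclideanSpace ℝ (Fin m))‖
        = √(∑ i, c i ^ 2) := by
    intro c
    have h2 : ∑ i, c i • ((EuclideanSpace.basisFun (Fin m) ℝ).toBasis i : EuclideanSpace ℝ (Fin m))
        = WithLp.toLp 2 c := by
      ext j
      simp [Finset.sum_apply, Pi.single_apply]
    rw [h2, EuclideanSpace.norm_eq]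
    simp
  show ‖∑ i, (ε i * a i) •
      ((EuclideanSpace.basisFun (Fin m) ℝ).toBasis i : EuclideanSpace ℝ (Fin m))‖ ≤
    u * ‖∑ i, a i • ((EuclideanSpace.basisFun (Fin m) ℝ).toBasis i : EuclideanSpace ℝ (Fin m))‖
  rw [h1, h1]
  have h3 : ∑ i, (ε i * a i) ^ 2 = ∑ i, a i ^ 2 := by
    refine Finset.sum_congr rfl fun i _ => ?_
    rcases hε i with h | h <;> simp [h]
  rw [h3]
  have := Real.sqrt_nonneg (∑ i, a i ^ 2)
  nlinarith

end Pool.Agent.H.MP_d7d3dc_an.H70
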